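import Pool.Agent.Q10.PK.LowerB

/-!
# Packing equal-length progressions with differences `1` to `n`

The conjecture `M(n) ~ n ^ 3 / (6 log n)` is false: for every `c < 19 / 108` we have
`M(n) ≥ c n ^ 3 / log n` for all large `n`, and `19 / 108 > 1 / 6`.
-/

set_option autoImplicit false

namespace Pool.Agent.Results.MP_0e9c37_co.ConjectureFails

open Filter Topology
open Pool.Agent.Q10.PK (PackInto prog M)

/-- Let `M n` be the least `m` such that the sets `B_d = {d, 2d, …, nd}`, `1 ≤ d ≤ n`, pack into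
`{1, …, m}`. For every real number `c < 19 / 108` one has `c n ^ 3 / log n ≤ M n` for all
sufficiently large `n`. In particular `M n * log n / n ^ 3` does not tend to `1 / 6`. -/
theorem result :
    (∀ c : ℝ, c < 19 / 108 → ∀ᶠ n : ℕ in atTop, c * (n : ℝ) ^ 3 / Real.log n ≤ M n) ∧
    ¬ Tendsto (fun n : ℕ => (M n : ℝ) * Real.log n / (n : ℝ) ^ 3) atTop (𝓝 (1 / 6)) :=
  ⟨Pool.Agent.Q10.PK.lower, Pool.Agent.Q10.PK.not_sixth⟩

end Pool.Agent.Results.MP_0e9c37_co.ConjectureFails
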